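import Mathlib
import Pool.Graph.R_pool_sql_team_22a80281.Results.MP_2c9a54_an.Positive

set_option autoImplicit false

/-! Helper file for MP_2c9a54_an (Trichotomy): for positive periodic coefficients two bounded
positive solutions approach each other exponentially fast. -/

open Finset Filter Topology

namespace Pool.Agent.KS6_9.RecExpo

open Pool.Agent.Results.MP_2c9a54_an.Positive (Sol bounds ex_sol)

/-- the two solutions are within the factor `R` of each other at the times `n` and `n + 1` -/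
def Near (x y : ℕ → ℝ) (R : ℝ) (n : ℕ) : Prop :=
  (x n ≤ R * y n ∧ y n ≤ R * x n) ∧ x (n + 1) ≤ R * y (n + 1) ∧ y (n + 1) ≤ R * x (n + 1)

lemma sol_eq {B x : ℕ → ℝ} (hB : ∀ n, 0 < B n) (hx : Sol B x) (n : ℕ) :
    x (n + 2) * (B n * x (n + 1) + x n) = 1 := by
  have h1 := hx.1 n
  have h2 := hx.1 (n + 1)
  have h3 := hB n
  rw [hx.2 n]
  have : 0 < B n * x (n + 1) + x n := by positivity
  field_simp

lemma half {B x y : ℕ → ℝ} (hB : ∀ n, 0 < B n) (hx : Sol B x) (hy : Sol B y) {R : ℝ}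
    {n : ℕ} (h1 : y n ≤ R * x n) (h2 : y (n + 1) ≤ R * x (n + 1)) : x (n + 2) ≤ R * y (n + 2) := by
  have e1 := sol_eq hB hx n
  have e2 := sol_eq hB hy n
  have p1 := hx.1 (n + 2)
  have p2 := hy.1 (n + 2)
  have q1 := hB n
  have h3 : B n * y (n + 1) + y n ≤ R * (B n * x (n + 1) + x n) := by
    have := mul_le_mul_of_nonneg_left h2 q1.le
    linarith
  have h4 := mul_le_mul_of_nonneg_left h3 (mul_pos p1 p2).le
  have e3 : x (n + 2) * y (n + 2) * (B n * y (n + 1) + y n) = x (n + 2) := by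
    rw [mul_assoc, e2, mul_one]
  have e4 : x (n + 2) * y (n + 2) * (R * (B n * x (n + 1) + x n)) = R * y (n + 2) := by
    have : x (n + 2) * y (n + 2) * (R * (B n * x (n + 1) + x n))
        = R * y (n + 2) * (x (n + 2) * (B n * x (n + 1) + x n)) := by ring
    rw [this, e1, mul_one]
  rwa [e3, e4] at h4

lemma Near.succ {B x y : ℕ → ℝ} (hB : ∀ n, 0 < B n) (hx : Sol B x) (hy : Sol B y) {R : ℝ}
    {n : ℕ} (h : Near x y R n) : Near x y R (n + 1) :=
  ⟨h.2, half hB hx hy h.1.2 h.2.2, half hB hy hx h.1.1 h.2.1⟩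

lemma Near.le {B x y : ℕ → ℝ} (hB : ∀ n, 0 < B n) (hx : Sol B x) (hy : Sol B y) {R : ℝ}
    {n m : ℕ} (hm : n ≤ m) (h : Near x y R n) : Near x y R m := by
  induction m, hm using Nat.le_induction with
  | base => exact h
  | succ m _ ih => exact ih.succ hB hx hy

lemma near_start {B x y : ℕ → ℝ} (hx : Sol B x) (hy : Sol B y) : ∃ R, 1 ≤ R ∧ Near x y R 0 := by
  have a := hx.1 0
  have b := hx.1 1
  have c := hy.1 0
  have d := hy.1 1
  have h1 : 0 < x 0 / y 0 := by positivity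
  have h2 : 0 < y 0 / x 0 := by positivity
  have h3 : 0 < x 1 / y 1 := by positivity
  have h4 : 0 < y 1 / x 1 := by positivity
  refine ⟨1 + x 0 / y 0 + y 0 / x 0 + x 1 / y 1 + y 1 / x 1, by linarith, ⟨?_, ?_⟩, ?_, ?_⟩
  · rw [← div_le_iff₀ c]; linarith
  · rw [← div_le_iff₀ a]; linarith
  · rw [← div_le_iff₀ d]; simp only [zero_add]; linarith
  · rw [← div_le_iff₀ b]; simp only [zero_add]; linarith

/-- the scalar inequality -/
lemma scalar {w R : ℝ} (hw : 0 < w) (hw1 : w ≤ 1) (hR : 1 ≤ R) :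
    R ≤ (R - w / 2 * (R - 1)) * (1 + w * ((R - 1) * (R + 2)) / 2) := by
  have e : (R - w / 2 * (R - 1)) * (1 + w * ((R - 1) * (R + 2)) / 2) - R
      = (w * (R - 1) / 2) * (R * (R + 2) - 1 - w / 2 * ((R - 1) * (R + 2))) := by ring
  have h1 : 0 ≤ w * (R - 1) / 2 := by
    have : 0 ≤ R - 1 := by linarith
    positivity
  have h2 : w / 2 * ((R - 1) * (R + 2)) ≤ 1 / 2 * (R * (R + 2)) := by
    apply mul_le_mul (by linarith) _ (by nlinarith) (by norm_num)
    nlinarith
  have h3 : 0 ≤ R * (R + 2) - 1 - w / 2 * ((R - 1) * (R + 2)) := by nlinarith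
  have := mul_nonneg h1 h3
  linarith

/-- one contraction step -/
lemma step {w R b b' x0 x1 x2 y0 y1 y2 : ℝ} (hw : 0 < w) (hw1 : w ≤ 1) (hR : 1 ≤ R)
    (hb : 0 < b) (hb' : 0 < b') (px0 : 0 < x0) (px1 : 0 < x1) (px2 : 0 < x2) (py0 : 0 < y0)
    (py1 : 0 < y1) (py2 : 0 < y2)
    (h0 : y0 ≤ R * x0) (h1 : x1 ≤ R * y1) (h2 : x2 ≤ R * y2)
    (ex : x2 * (b * x1 + x0) = 1) (ey : y2 * (b * y1 + y0) = 1)
    (wy : w * (b * y1 + y0) ≤ b * y1) (wy2 : w * (b' * y2 + y1) ≤ b' * y2)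
    (wy3 : w * (b' * y2 + y1) ≤ y1) :
    b' * x2 + x1 ≤ (R - w ^ 2 / 2 * (R - 1)) * (b' * y2 + y1) := by
  have hu : 0 ≤ R - 1 := by linarith
  have hS : 0 < b' * y2 + y1 := by positivity
  by_cases hc : x1 ≤ (R + 1) / 2 * y1
  · have a1 : (R - 1) / 2 * (w * (b' * y2 + y1)) ≤ (R - 1) / 2 * y1 :=
      mul_le_mul_of_nonneg_left wy3 (by linarith)
    have a2 : b' * x2 ≤ b' * (R * y2) := mul_le_mul_of_nonneg_left h2 hb'.le
    have a3 : w ^ 2 / 2 * (R - 1) * (b' * y2 + y1) ≤ (R - 1) / 2 * (w * (b' * y2 + y1)) := by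
      have : w ^ 2 ≤ w := by nlinarith
      have h5 := mul_le_mul_of_nonneg_right this (mul_nonneg hu hS.le)
      nlinarith
    nlinarith
  · push Not at hc
    have hT : 0 < b * y1 + y0 := by positivity
    have hX : 0 < b * x1 + x0 := by positivity
    -- the sums
    have a1 : b * ((R + 1) / 2 * y1) ≤ b * x1 := mul_le_mul_of_nonneg_left hc.le hb.le
    have a2 : R * (b * ((R + 1) / 2 * y1)) ≤ R * (b * x1) :=
      mul_le_mul_of_nonneg_left a1 (by linarith)
    have a3 : (b * y1 + y0) + (b * y1) * ((R - 1) * (R + 2) / 2) ≤ R * (b * x1 + x0) := by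
      nlinarith
    have a4 : (w * (b * y1 + y0)) * ((R - 1) * (R + 2) / 2)
        ≤ (b * y1) * ((R - 1) * (R + 2) / 2) :=
      mul_le_mul_of_nonneg_right wy (by
        have : 0 ≤ R + 2 := by linarith
        positivity)
    have a5 : (b * y1 + y0) * (1 + w * ((R - 1) * (R + 2)) / 2) ≤ R * (b * x1 + x0) := by
      nlinarith
    have hQ : 0 < R - w / 2 * (R - 1) := by nlinarith
    have a6 := mul_le_mul_of_nonneg_left a5 hQ.le
    have a7 := mul_le_mul_of_nonneg_left (scalar hw hw1 hR) hT.le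
    have a8 : R * (b * y1 + y0) ≤ R * ((R - w / 2 * (R - 1)) * (b * x1 + x0)) := by
      nlinarith
    have a9 : b * y1 + y0 ≤ (R - w / 2 * (R - 1)) * (b * x1 + x0) :=
      le_of_mul_le_mul_left a8 (by linarith)
    have a10 : x2 ≤ (R - w / 2 * (R - 1)) * y2 := by
      have h4 := mul_le_mul_of_nonneg_left a9 (mul_pos px2 py2).le
      have e3 : x2 * y2 * (b * y1 + y0) = x2 := by rw [mul_assoc, ey, mul_one]
      have e4 : x2 * y2 * ((R - w / 2 * (R - 1)) * (b * x1 + x0))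
          = (R - w / 2 * (R - 1)) * y2 * (x2 * (b * x1 + x0)) := by ring
      rw [e3, e4, ex, mul_one] at h4
      exact h4
    have a11 : b' * x2 ≤ b' * ((R - w / 2 * (R - 1)) * y2) := mul_le_mul_of_nonneg_left a10 hb'.le
    have a12 : (w / 2 * (R - 1)) * (w * (b' * y2 + y1)) ≤ (w / 2 * (R - 1)) * (b' * y2) :=
      mul_le_mul_of_nonneg_left wy2 (by positivity)
    nlinarith

/-- a bounded solution stays away from zero -/
lemma two_sided {B x : ℕ → ℝ} {K : ℝ} (hB : ∀ n, 0 < B n) (hK : ∀ n, B n ≤ K) (hx : Sol B x)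
    (hbd : BddAbove (Set.range x)) : ∃ m M : ℝ, 0 < m ∧ m ≤ M ∧ ∀ n, m ≤ x n ∧ x n ≤ M := by
  obtain ⟨M, hM⟩ := hbd
  have hM' : ∀ n, x n ≤ M := fun n => hM ⟨n, rfl⟩
  have hM0 : 0 < M := (hx.1 0).trans_le (hM' 0)
  have hK0 : 0 < K := (hB 0).trans_le (hK 0)
  have hd : 0 < K * M + M := by positivity
  refine ⟨min (min (x 0) (x 1)) (1 / (K * M + M)), M, ?_, ?_, fun n => ⟨?_, hM' n⟩⟩
  · exact lt_min (lt_min (hx.1 0) (hx.1 1)) (by positivity)
  · exact (min_le_left _ _).trans ((min_le_left _ _).trans (hM' 0))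
  · match n with
    | 0 => exact (min_le_left _ _).trans (min_le_left _ _)
    | 1 => exact (min_le_left _ _).trans (min_le_right _ _)
    | n + 2 =>
      refine (min_le_right _ _).trans ?_
      rw [hx.2 n]
      have h1 := hx.1 n
      have h2 := hx.1 (n + 1)
      have h3 := hB n
      refine one_div_le_one_div_of_le (by positivity) ?_
      have h4 : B n * x (n + 1) ≤ K * M := mul_le_mul (hK n) (hM' _) h2.le hK0.le
      linarith [hM' n]

/-- the weights of the two summands are bounded below -/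
lemma weights {B x : ℕ → ℝ} {K : ℝ} (hK1 : 1 ≤ K) (hB : ∀ n, 0 < B n)
    (hK : ∀ n, B n ≤ K ∧ 1 ≤ K * B n) (hx : Sol B x) (hbd : BddAbove (Set.range x)) :
    ∃ w : ℝ, 0 < w ∧ w ≤ 1 ∧ ∀ n, w * (B n * x (n + 1) + x n) ≤ B n * x (n + 1) ∧
      w * (B n * x (n + 1) + x n) ≤ x n := by
  obtain ⟨m, M, hm, hmM, hb⟩ := two_sided hB (fun n => (hK n).1) hx hbd
  have hM : 0 < M := hm.trans_le hmM
  have hK0 : 0 < K := by linarith
  refine ⟨m / (2 * K ^ 2 * M), by positivity, ?_, fun n => ?_⟩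
  · rw [div_le_one (by positivity)]
    nlinarith [mul_le_mul hK1 hK1 (by norm_num) hK0.le]
  · have h1 := hB n
    have h2 := hb n
    have h3 := hb (n + 1)
    have h4 : B n * x (n + 1) + x n ≤ 2 * K * M := by
      have : B n * x (n + 1) ≤ K * M := mul_le_mul (hK n).1 h3.2 (hm.le.trans h3.1) hK0.le
      nlinarith [h2.2]
    have h5 : m / (2 * K ^ 2 * M) * (B n * x (n + 1) + x n) ≤ m / K := by
      refine (mul_le_mul_of_nonneg_left h4 (by positivity)).trans (le_of_eq ?_)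
      field_simp
    refine ⟨h5.trans ?_, h5.trans ?_⟩
    · rw [div_le_iff₀ hK0]
      have h6 : 1 * m ≤ K * B n * x (n + 1) :=
        mul_le_mul (hK n).2 h3.1 hm.le (by positivity)
      linarith
    · refine (div_le_self hm.le hK1).trans h2.1

/-- any two bounded solutions approach each other exponentially -/
lemma expo {k : ℕ} (hk : 1 ≤ k) {B x y : ℕ → ℝ} (hB : ∀ n, 0 < B n)
    (hp : ∀ n, B (n + k) = B n) (hx : Sol B x) (hy : Sol B y) (bx : BddAbove (Set.range x))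
    (hby : BddAbove (Set.range y)) :
    ∃ C θ : ℝ, 0 ≤ C ∧ 0 < θ ∧ θ < 1 ∧ ∀ n, |x n - y n| ≤ C * θ ^ n := by
  obtain ⟨K, hK1, hK⟩ := bounds (by omega : 0 < k) hB hp
  obtain ⟨w1, a1, a2, a3⟩ := weights hK1 hB hK hx bx
  obtain ⟨w2, b1, b2, b3⟩ := weights hK1 hB hK hy hby
  set w := min w1 w2 with hw
  have hw0 : 0 < w := lt_min a1 b1
  have hw1 : w ≤ 1 := (min_le_left _ _).trans a2
  have wx : ∀ n, w * (B n * x (n + 1) + x n) ≤ B n * x (n + 1) ∧
      w * (B n * x (n + 1) + x n) ≤ x n := by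
    intro n
    have h1 : 0 ≤ B n * x (n + 1) + x n := by
      have := hB n; have := hx.1 n; have := hx.1 (n + 1); positivity
    have h2 := mul_le_mul_of_nonneg_right (min_le_left w1 w2) h1
    exact ⟨h2.trans (a3 n).1, h2.trans (a3 n).2⟩
  have wy : ∀ n, w * (B n * y (n + 1) + y n) ≤ B n * y (n + 1) ∧
      w * (B n * y (n + 1) + y n) ≤ y n := by
    intro n
    have h1 : 0 ≤ B n * y (n + 1) + y n := by
      have := hB n; have := hy.1 n; have := hy.1 (n + 1); positivity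
    have h2 := mul_le_mul_of_nonneg_right (min_le_right w1 w2) h1
    exact ⟨h2.trans (b3 n).1, h2.trans (b3 n).2⟩
  set c := w ^ 2 / 2 with hc
  have hc0 : 0 < c := by positivity
  have hc1 : c < 1 := by
    have : w ^ 2 ≤ 1 := pow_le_one₀ hw0.le hw1
    rw [hc]; linarith
  -- one contraction step for a pair of solutions
  have one : ∀ (u v : ℕ → ℝ), Sol B u → Sol B v →
      (∀ n, w * (B n * v (n + 1) + v n) ≤ B n * v (n + 1) ∧
        w * (B n * v (n + 1) + v n) ≤ v n) →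
      ∀ (R : ℝ), 1 ≤ R → ∀ n, Near u v R n → v (n + 3) ≤ (R - c * (R - 1)) * u (n + 3) := by
    intro u v hu hv hwv R hR n hN
    have hN2 := (hN.succ hB hu hv)
    have s1 := step (w := w) (R := R) (b := B n) (b' := B (n + 1)) hw0 hw1 hR (hB _) (hB _)
      (hu.1 n) (hu.1 (n + 1)) (hu.1 (n + 2)) (hv.1 n) (hv.1 (n + 1)) (hv.1 (n + 2))
      hN.1.2 hN.2.1 hN2.2.1 (sol_eq hB hu n) (sol_eq hB hv n) (hwv n).1 (hwv (n + 1)).1
      (hwv (n + 1)).2
    rw [← hc] at s1
    have e1 := sol_eq hB hu (n + 1)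
    have e2 := sol_eq hB hv (n + 1)
    have p1 := hu.1 (n + 3)
    have p2 := hv.1 (n + 3)
    have h4 := mul_le_mul_of_nonneg_left s1 (mul_pos p1 p2).le
    have e3 : u (n + 3) * v (n + 3) * (B (n + 1) * u (n + 2) + u (n + 1)) = v (n + 3) := by
      have : u (n + 3) * v (n + 3) * (B (n + 1) * u (n + 2) + u (n + 1))
          = v (n + 3) * (u (n + 1 + 2) * (B (n + 1) * u (n + 1 + 1) + u (n + 1))) := by ring
      rw [this, e1, mul_one]
    have e4 : u (n + 3) * v (n + 3) * ((R - c * (R - 1)) * (B (n + 1) * v (n + 2) + v (n + 1)))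
        = (R - c * (R - 1)) * u (n + 3) := by
      have : u (n + 3) * v (n + 3) * ((R - c * (R - 1)) * (B (n + 1) * v (n + 2) + v (n + 1)))
          = (R - c * (R - 1)) * u (n + 3)
            * (v (n + 1 + 2) * (B (n + 1) * v (n + 1 + 1) + v (n + 1))) := by ring
      rw [this, e2, mul_one]
    rwa [e3, e4] at h4
  have three : ∀ R, 1 ≤ R → ∀ n, Near x y R n → Near x y (R - c * (R - 1)) (n + 3) := by
    intro R hR n hN
    have hN' : Near y x R n := ⟨⟨hN.1.2, hN.1.1⟩, hN.2.2, hN.2.1⟩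
    have hN1 := hN.succ hB hx hy
    have hN1' := hN'.succ hB hy hx
    exact ⟨⟨one y x hy hx wx R hR n hN', one x y hx hy wy R hR n hN⟩,
      one y x hy hx wx R hR (n + 1) hN1', one x y hx hy wy R hR (n + 1) hN1⟩
  obtain ⟨R, hR, h0⟩ := near_start hx hy
  have iter : ∀ j : ℕ, Near x y (1 + (1 - c) ^ j * (R - 1)) (3 * j) := by
    intro j
    induction j with
    | zero => simpa using h0
    | succ j ih =>
      have h1 : 1 ≤ 1 + (1 - c) ^ j * (R - 1) := by
        have : 0 ≤ (1 - c) ^ j := pow_nonneg (by linarith) _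
        have h2 : 0 ≤ R - 1 := by linarith
        nlinarith [mul_nonneg this h2]
      have h2 := three _ h1 _ ih
      have e : 1 + (1 - c) ^ j * (R - 1) - c * (1 + (1 - c) ^ j * (R - 1) - 1)
          = 1 + (1 - c) ^ (j + 1) * (R - 1) := by ring
      rw [e] at h2
      exact h2
  obtain ⟨m, M, hm, hmM, hb⟩ := two_sided hB (fun n => (hK n).1) hy hby
  obtain ⟨m', M', hm', hmM', hb'⟩ := two_sided hB (fun n => (hK n).1) hx bx
  have hM0 : 0 < M := hm.trans_le hmM
  have hM0' : 0 < M' := hm'.trans_le hmM'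
  set θ := 1 - c / 3 with hθ
  have hθ0 : 0 < θ := by rw [hθ]; linarith
  have hθ1 : θ < 1 := by rw [hθ]; linarith
  have hθ3 : 1 - c ≤ θ ^ 3 := by
    have : θ ^ 3 - (1 - c) = (c / 3) ^ 2 * (3 - c / 3) := by rw [hθ]; ring
    have h2 : 0 ≤ (c / 3) ^ 2 * (3 - c / 3) := mul_nonneg (sq_nonneg _) (by linarith)
    linarith
  refine ⟨(M + M') * (R - 1) / θ ^ 2, θ, ?_, hθ0, hθ1, fun n => ?_⟩
  · have : 0 ≤ R - 1 := by linarith
    positivity
  · set j := n / 3 with hj
    have hN := (iter j).le hB hx hy (by omega : 3 * j ≤ n)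
    have hR' : 0 ≤ (1 - c) ^ j * (R - 1) :=
      mul_nonneg (pow_nonneg (by linarith) _) (by linarith)
    have h1 : |x n - y n| ≤ (M + M') * ((1 - c) ^ j * (R - 1)) := by
      have c1 := hN.1.1
      have c2 := hN.1.2
      have c3 := mul_le_mul_of_nonneg_left (hb n).2 hR'
      have c4 := mul_le_mul_of_nonneg_left (hb' n).2 hR'
      have c5 := mul_nonneg hR' hM0.le
      have c6 := mul_nonneg hR' hM0'.le
      rw [abs_le]
      constructor <;> nlinarith
    refine h1.trans ?_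
    have h2 : (1 - c) ^ j ≤ θ ^ n / θ ^ 2 := by
      rw [le_div_iff₀ (by positivity)]
      calc (1 - c) ^ j * θ ^ 2 ≤ (θ ^ 3) ^ j * θ ^ 2 :=
            mul_le_mul_of_nonneg_right (pow_le_pow_left₀ (by linarith) hθ3 j) (by positivity)
        _ = θ ^ (3 * j + 2) := by rw [pow_add, pow_mul]
        _ ≤ θ ^ n := pow_le_pow_of_le_one hθ0.le hθ1.le (by omega)
    have h3 : 0 ≤ (M + M') * (R - 1) := mul_nonneg (by linarith) (by linarith)
    calc (M + M') * ((1 - c) ^ j * (R - 1)) = (M + M') * (R - 1) * (1 - c) ^ j := by ring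
      _ ≤ (M + M') * (R - 1) * (θ ^ n / θ ^ 2) := mul_le_mul_of_nonneg_left h2 h3
      _ = (M + M') * (R - 1) / θ ^ 2 * θ ^ n := by ring

/-- one bounded solution makes all solutions bounded -/
lemma all_bdd {B x y : ℕ → ℝ} (hB : ∀ n, 0 < B n) (hx : Sol B x) (hy : Sol B y)
    (bx : BddAbove (Set.range x)) : BddAbove (Set.range y) := by
  obtain ⟨R, hR, h0⟩ := near_start hx hy
  obtain ⟨M, hM⟩ := bx
  refine ⟨R * M, ?_⟩
  rintro _ ⟨n, rfl⟩
  refine (h0.le hB hx hy (Nat.zero_le n)).1.2.trans ?_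
  exact mul_le_mul_of_nonneg_left (hM ⟨n, rfl⟩) (by linarith)

lemma sol_shift {k : ℕ} {B x : ℕ → ℝ} (hp : ∀ n, B (n + k) = B n) (hx : Sol B x) :
    Sol B (fun n => x (n + k)) := by
  refine ⟨fun n => hx.1 _, fun n => ?_⟩
  have h := hx.2 (n + k)
  rw [hp] at h
  show x (n + 2 + k) = 1 / (B n * x (n + 1 + k) + x (n + k))
  rw [show n + 2 + k = n + k + 2 by ring, h, show n + 1 + k = n + k + 1 by ring]

lemma per_bdd {f : ℕ → ℝ} {q : ℕ} (hq : 1 ≤ q) (h : ∀ n, f (n + q) = f n) :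
    BddAbove (Set.range f) := by
  have hf : Function.Periodic f q := h
  refine ⟨∑ r ∈ range q, |f r|, ?_⟩
  rintro _ ⟨n, rfl⟩
  rw [← hf.map_mod_nat n]
  exact (le_abs_self _).trans
    (single_le_sum (f := fun r => |f r|) (fun r _ => abs_nonneg _)
      (mem_range.2 (Nat.mod_lt n (by omega))))

end Pool.Agent.KS6_9.RecExpo
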