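import Mathlib
import Pool.Graph.R_pool_sql_team_22a80281.Results.MP_2c9a54_an.Positive

set_option autoImplicit false

/-! Helper file for MP_2c9a54_an (Trichotomy): nonnegative periodic coefficients. Two bounded
positive solutions are asymptotic if the coefficient does not vanish along a parity class. -/

open Finset Filter Topology

namespace Pool.Agent.KS6_9.Rec

open Pool.Agent.Results.MP_2c9a54_an.Positive (Sol)

/-- the two solutions are within the factor `R` of each other at the times `n` and `n + 1` -/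
def Near (x y : ℕ → ℝ) (R : ℝ) (n : ℕ) : Prop :=
  (x n ≤ R * y n ∧ y n ≤ R * x n) ∧ x (n + 1) ≤ R * y (n + 1) ∧ y (n + 1) ≤ R * x (n + 1)

lemma den_pos {b x : ℕ → ℝ} (hb : ∀ n, 0 ≤ b n) (hx : Sol b x) (n : ℕ) :
    0 < b n * x (n + 1) + x n :=
  add_pos_of_nonneg_of_pos (mul_nonneg (hb n) (hx.1 (n + 1)).le) (hx.1 n)

lemma sol_eq {b x : ℕ → ℝ} (hb : ∀ n, 0 ≤ b n) (hx : Sol b x) (n : ℕ) :
    x (n + 2) * (b n * x (n + 1) + x n) = 1 := by
  rw [hx.2 n, one_div, inv_mul_cancel₀ (den_pos hb hx n).ne']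

lemma half {b x y : ℕ → ℝ} (hb : ∀ n, 0 ≤ b n) (hx : Sol b x) (hy : Sol b y) {R : ℝ}
    {n : ℕ} (h1 : y n ≤ R * x n) (h2 : y (n + 1) ≤ R * x (n + 1)) : x (n + 2) ≤ R * y (n + 2) := by
  have e1 := sol_eq hb hx n
  have e2 := sol_eq hb hy n
  have p1 := hx.1 (n + 2)
  have p2 := hy.1 (n + 2)
  have h3 : b n * y (n + 1) + y n ≤ R * (b n * x (n + 1) + x n) := by
    have := mul_le_mul_of_nonneg_left h2 (hb n)
    linarith
  have h4 := mul_le_mul_of_nonneg_left h3 (mul_pos p1 p2).le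
  have e3 : x (n + 2) * y (n + 2) * (b n * y (n + 1) + y n) = x (n + 2) := by
    rw [mul_assoc, e2, mul_one]
  have e4 : x (n + 2) * y (n + 2) * (R * (b n * x (n + 1) + x n)) = R * y (n + 2) := by
    have : x (n + 2) * y (n + 2) * (R * (b n * x (n + 1) + x n))
        = R * y (n + 2) * (x (n + 2) * (b n * x (n + 1) + x n)) := by ring
    rw [this, e1, mul_one]
  rwa [e3, e4] at h4

lemma Near.succ {b x y : ℕ → ℝ} (hb : ∀ n, 0 ≤ b n) (hx : Sol b x) (hy : Sol b y) {R : ℝ}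
    {n : ℕ} (h : Near x y R n) : Near x y R (n + 1) :=
  ⟨h.2, half hb hx hy h.1.2 h.2.2, half hb hy hx h.1.1 h.2.1⟩

lemma Near.le {b x y : ℕ → ℝ} (hb : ∀ n, 0 ≤ b n) (hx : Sol b x) (hy : Sol b y) {R : ℝ}
    {n m : ℕ} (hm : n ≤ m) (h : Near x y R n) : Near x y R m := by
  induction m, hm using Nat.le_induction with
  | base => exact h
  | succ m _ ih => exact ih.succ hb hx hy

/-- a bounded solution stays away from zero -/
lemma two_sided {b x : ℕ → ℝ} {K : ℝ} (hK0 : 0 ≤ K) (hb : ∀ n, 0 ≤ b n) (hK : ∀ n, b n ≤ K)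
    (hx : Sol b x) (hbd : BddAbove (Set.range x)) :
    ∃ m M : ℝ, 0 < m ∧ m ≤ M ∧ ∀ n, m ≤ x n ∧ x n ≤ M := by
  obtain ⟨M, hM⟩ := hbd
  have hM' : ∀ n, x n ≤ M := fun n => hM ⟨n, rfl⟩
  have hM0 : 0 < M := (hx.1 0).trans_le (hM' 0)
  have hd : 0 < K * M + M := by positivity
  refine ⟨min (min (x 0) (x 1)) (1 / (K * M + M)), M, ?_, ?_, fun n => ⟨?_, hM' n⟩⟩
  · exact lt_min (lt_min (hx.1 0) (hx.1 1)) (by positivity)
  · exact (min_le_left _ _).trans ((min_le_left _ _).trans (hM' 0))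
  · match n with
    | 0 => exact (min_le_left _ _).trans (min_le_left _ _)
    | 1 => exact (min_le_left _ _).trans (min_le_right _ _)
    | n + 2 =>
      refine (min_le_right _ _).trans ?_
      rw [hx.2 n]
      refine one_div_le_one_div_of_le (den_pos hb hx n) ?_
      have h4 : b n * x (n + 1) ≤ K * M := mul_le_mul (hK n) (hM' _) (hx.1 _).le hK0
      linarith [hM' n]

/-! ### the rigidity argument -/

/-- from the value at `n + 2` back to the values at `n`, `n + 1` -/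
lemma back {b X Y : ℕ → ℝ} (hb : ∀ n, 0 ≤ b n) (hX : Sol b X) (hY : Sol b Y) {R : ℝ}
    (h : ∀ i, X i ≤ R * Y i ∧ Y i ≤ R * X i) {i : ℕ} (h2 : X (i + 2) = R * Y (i + 2)) :
    Y i = R * X i ∧ (b i ≠ 0 → Y (i + 1) = R * X (i + 1)) := by
  have e1 := sol_eq hb hX i
  have e2 := sol_eq hb hY i
  have p2 := hY.1 (i + 2)
  have hsum : b i * Y (i + 1) + Y i = R * (b i * X (i + 1) + X i) := by
    have h3 : Y (i + 2) * (b i * Y (i + 1) + Y i) = Y (i + 2) * (R * (b i * X (i + 1) + X i)) := by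
      rw [e2, ← e1, h2]; ring
    exact mul_left_cancel₀ p2.ne' h3
  have a1 := (h i).2
  have a2 := mul_le_mul_of_nonneg_left (h (i + 1)).2 (hb i)
  have a3 : Y i = R * X i := by linarith
  refine ⟨a3, fun hbi => ?_⟩
  have a4 : b i * Y (i + 1) = b i * (R * X (i + 1)) := by linarith
  exact mul_left_cancel₀ hbi a4

/-- two equal extreme values produce the opposite extreme value -/
lemma forth {b X Y : ℕ → ℝ} (hb : ∀ n, 0 ≤ b n) (hX : Sol b X) (hY : Sol b Y) {R : ℝ}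
    {i : ℕ} (h0 : Y i = R * X i) (h1 : Y (i + 1) = R * X (i + 1)) :
    X (i + 2) = R * Y (i + 2) := by
  have e1 := sol_eq hb hX i
  have e2 := sol_eq hb hY i
  have hd := den_pos hb hX i
  have h3 : X (i + 2) * (b i * X (i + 1) + X i) = (R * Y (i + 2)) * (b i * X (i + 1) + X i) := by
    rw [e1, ← e2, h0, h1]; ring
  exact mul_right_cancel₀ hd.ne' h3

lemma rigid {b X Y : ℕ → ℝ} (hb : ∀ n, 0 ≤ b n) (hX : Sol b X) (hY : Sol b Y) {R : ℝ}
    (hR : 1 < R) (h : ∀ i, X i ≤ R * Y i ∧ Y i ≤ R * X i)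
    (hE : ∀ i, (X i = R * Y i ∨ Y i = R * X i) ∨
      (X (i + 1) = R * Y (i + 1) ∨ Y (i + 1) = R * X (i + 1))) :
    ∃ i, ∀ j, b (i + 2 * j) = 0 := by
  have h' : ∀ i, Y i ≤ R * X i ∧ X i ≤ R * Y i := fun i => ⟨(h i).2, (h i).1⟩
  have excl : ∀ i, X i = R * Y i → Y i = R * X i → False := by
    intro i h1 h2
    have p := hX.1 i
    rw [h2] at h1
    have a1 : X i < R * X i := by nlinarith
    have a2 : R * X i < R * (R * X i) := by
      have := mul_lt_mul_of_pos_left a1 (by linarith : 0 < R)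
      exact this
    linarith
  have bX : ∀ i, X (i + 2) = R * Y (i + 2) →
      Y i = R * X i ∧ (b i ≠ 0 → Y (i + 1) = R * X (i + 1)) := fun i => back hb hX hY h
  have bY : ∀ i, Y (i + 2) = R * X (i + 2) →
      X i = R * Y i ∧ (b i ≠ 0 → X (i + 1) = R * Y (i + 1)) := fun i => back hb hY hX h'
  by_cases hall : ∀ i, X i = R * Y i ∨ Y i = R * X i
  · -- opposite pairs propagate
    have op : ∀ i, (X i = R * Y i ∧ Y (i + 1) = R * X (i + 1)) ∨
        (Y i = R * X i ∧ X (i + 1) = R * Y (i + 1)) → b i = 0 ∧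
        ((X (i + 2) = R * Y (i + 2) ∧ Y (i + 2 + 1) = R * X (i + 2 + 1)) ∨
        (Y (i + 2) = R * X (i + 2) ∧ X (i + 2 + 1) = R * Y (i + 2 + 1))) := by
      rintro i (⟨h1, h2⟩ | ⟨h1, h2⟩)
      · have h3 : Y (i + 2) = R * X (i + 2) := by
          rcases hall (i + 2) with h3 | h3
          · exact absurd (bX i h3).1 (fun h4 => excl i h1 h4)
          · exact h3
        refine ⟨?_, Or.inr ⟨h3, forth hb hX hY h2 h3⟩⟩
        by_contra hbi
        exact excl (i + 1) ((bY i h3).2 hbi) h2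
      · have h3 : X (i + 2) = R * Y (i + 2) := by
          rcases hall (i + 2) with h3 | h3
          · exact h3
          · exact absurd (bY i h3).1 (fun h4 => excl i h4 h1)
        refine ⟨?_, Or.inl ⟨h3, forth hb hY hX h2 h3⟩⟩
        by_contra hbi
        exact excl (i + 1) h2 ((bX i h3).2 hbi)
    have chain : ∀ i, ((X i = R * Y i ∧ Y (i + 1) = R * X (i + 1)) ∨
        (Y i = R * X i ∧ X (i + 1) = R * Y (i + 1))) → ∀ j, b (i + 2 * j) = 0 ∧
        ((X (i + 2 * j) = R * Y (i + 2 * j) ∧ Y (i + 2 * j + 1) = R * X (i + 2 * j + 1)) ∨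
        (Y (i + 2 * j) = R * X (i + 2 * j) ∧ X (i + 2 * j + 1) = R * Y (i + 2 * j + 1))) := by
      intro i h0 j
      induction j with
      | zero => exact ⟨(op i h0).1, h0⟩
      | succ j ih =>
        have h1 := (op _ ih.2).2
        have e : i + 2 * (j + 1) = i + 2 * j + 2 := by ring
        rw [e]
        exact ⟨(op _ h1).1, h1⟩
    rcases hall 0 with h0 | h0 <;> rcases hall 1 with h1 | h1
    · have h2 := forth hb hY hX (i := 0) h0 h1
      exact ⟨1, fun j => (chain 1 (Or.inl ⟨h1, h2⟩) j).1⟩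
    · exact ⟨0, fun j => (chain 0 (Or.inl ⟨h0, h1⟩) j).1⟩
    · exact ⟨0, fun j => (chain 0 (Or.inr ⟨h0, h1⟩) j).1⟩
    · have h2 := forth hb hX hY (i := 0) h0 h1
      exact ⟨1, fun j => (chain 1 (Or.inr ⟨h1, h2⟩) j).1⟩
  · push Not at hall
    obtain ⟨i, hi1, hi2⟩ := hall
    have non : ∀ j, ¬ (X (i + 2 * j) = R * Y (i + 2 * j) ∨ Y (i + 2 * j) = R * X (i + 2 * j)) := by
      intro j
      induction j with
      | zero =>
        rintro (h1 | h1)
        · exact hi1 h1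
        · exact hi2 h1
      | succ j ih =>
        have e : i + 2 * (j + 1) = i + 2 * j + 2 := by ring
        rw [e]
        rintro (h1 | h1)
        · exact ih (Or.inr (bX _ h1).1)
        · exact ih (Or.inl (bY _ h1).1)
    refine ⟨i + 1, fun j => ?_⟩
    by_contra hbi
    have h1 := non (j + 1)
    have e : i + 2 * (j + 1) = i + 1 + 2 * j + 1 := by ring
    rw [e] at h1
    have h2 := hE (i + 1 + 2 * j + 1)
    rcases h2 with h2 | h2 | h2
    · exact h1 h2
    · exact h1 (Or.inr ((bX (i + 1 + 2 * j) h2).2 hbi))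
    · exact h1 (Or.inl ((bY (i + 1 + 2 * j) h2).2 hbi))

/-! ### limits along multiples of the period -/

lemma per_mul {k : ℕ} {b : ℕ → ℝ} (hp : ∀ n, b (n + k) = b n) (n j : ℕ) :
    b (j * k + n) = b n := by
  induction j with
  | zero => simp
  | succ j ih => rw [add_mul, one_mul, show j * k + k + n = j * k + n + k by ring, hp, ih]

/-- the limit of the shifts of a solution is a solution if the first two terms converge -/
lemma limit_sol {k : ℕ} {b x : ℕ → ℝ} (hb : ∀ n, 0 ≤ b n) (hp : ∀ n, b (n + k) = b n)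
    (hx : Sol b x) {m : ℝ} (hm : 0 < m) (hmx : ∀ n, m ≤ x n) {φ : ℕ → ℕ} {u v : ℝ}
    (hu : Tendsto (fun j => x (φ j * k + 0)) atTop (𝓝 u))
    (hv : Tendsto (fun j => x (φ j * k + 1)) atTop (𝓝 v)) :
    ∃ X, Sol b X ∧ ∀ i, Tendsto (fun j => x (φ j * k + i)) atTop (𝓝 (X i)) := by
  have key : ∀ i, (∃ u, Tendsto (fun j => x (φ j * k + i)) atTop (𝓝 u)) ∧
      (∃ v, Tendsto (fun j => x (φ j * k + (i + 1))) atTop (𝓝 v)) := by
    intro i
    induction i with
    | zero => exact ⟨⟨u, hu⟩, ⟨v, hv⟩⟩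
    | succ i ih =>
      obtain ⟨⟨u', hu'⟩, ⟨v', hv'⟩⟩ := ih
      refine ⟨⟨v', hv'⟩, ⟨1 / (b i * v' + u'), ?_⟩⟩
      have hu0 : 0 < u' := hm.trans_le (ge_of_tendsto' hu' fun j => hmx _)
      have hv0 : 0 < v' := hm.trans_le (ge_of_tendsto' hv' fun j => hmx _)
      have hd : 0 < b i * v' + u' := add_pos_of_nonneg_of_pos (mul_nonneg (hb i) hv0.le) hu0
      have h3 := (tendsto_const_nhds (x := (1 : ℝ))).div ((hv'.const_mul (b i)).add hu') hd.ne'
      refine h3.congr fun j => ?_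
      have h4 := hx.2 (φ j * k + i)
      rw [per_mul hp] at h4
      show 1 / (b i * x (φ j * k + (i + 1)) + x (φ j * k + i)) = x (φ j * k + (i + 1 + 1))
      rw [show φ j * k + (i + 1 + 1) = φ j * k + i + 2 by ring, h4, ← add_assoc]
  choose X hX using fun i => (key i).1
  have hpos : ∀ i, 0 < X i := fun i => hm.trans_le (ge_of_tendsto' (hX i) fun j => hmx _)
  refine ⟨X, ⟨hpos, fun i => ?_⟩, hX⟩
  have hd : 0 < b i * X (i + 1) + X i :=
    add_pos_of_nonneg_of_pos (mul_nonneg (hb i) (hpos _).le) (hpos i)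
  have h3 := (tendsto_const_nhds (x := (1 : ℝ))).div (((hX (i + 1)).const_mul (b i)).add (hX i))
    hd.ne'
  refine tendsto_nhds_unique (hX (i + 2)) (h3.congr fun j => ?_)
  have h4 := hx.2 (φ j * k + i)
  rw [per_mul hp] at h4
  show 1 / (b i * x (φ j * k + (i + 1)) + x (φ j * k + i)) = x (φ j * k + (i + 2))
  rw [show φ j * k + (i + 2) = φ j * k + i + 2 by ring, h4, ← add_assoc]

/-- common subsequential limits of two bounded solutions -/
lemma pair_limit {k : ℕ} {b x y : ℕ → ℝ} (hb : ∀ n, 0 ≤ b n) (hp : ∀ n, b (n + k) = b n)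
    (hx : Sol b x) (hy : Sol b y) {m M : ℝ} (hm : 0 < m) (hmx : ∀ n, m ≤ x n ∧ x n ≤ M)
    (hmy : ∀ n, m ≤ y n ∧ y n ≤ M) :
    ∃ φ : ℕ → ℕ, StrictMono φ ∧ ∃ X Y, Sol b X ∧ Sol b Y ∧
      (∀ i, Tendsto (fun j => x (φ j * k + i)) atTop (𝓝 (X i))) ∧
      (∀ i, Tendsto (fun j => y (φ j * k + i)) atTop (𝓝 (Y i))) := by
  have hcomp : IsCompact ((Set.Icc m M ×ˢ Set.Icc m M) ×ˢ (Set.Icc m M ×ˢ Set.Icc m M)) :=
    (isCompact_Icc.prod isCompact_Icc).prod (isCompact_Icc.prod isCompact_Icc)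
  obtain ⟨⟨⟨u, v⟩, ⟨u', v'⟩⟩, -, φ, hφ, hlim⟩ := hcomp.tendsto_subseq
    (x := fun j : ℕ => ((x (j * k + 0), x (j * k + 1)), (y (j * k + 0), y (j * k + 1))))
    (fun j => ⟨⟨hmx _, hmx _⟩, ⟨hmy _, hmy _⟩⟩)
  have h1 := (continuous_fst.tendsto _).comp hlim
  have h2 := (continuous_snd.tendsto _).comp hlim
  have h11 := (continuous_fst.tendsto _).comp h1
  have h12 := (continuous_snd.tendsto _).comp h1
  have h21 := (continuous_fst.tendsto _).comp h2
  have h22 := (continuous_snd.tendsto _).comp h2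
  obtain ⟨X, hX, hXl⟩ := limit_sol hb hp hx hm (fun n => (hmx n).1) (φ := φ) h11 h12
  obtain ⟨Y, hY, hYl⟩ := limit_sol hb hp hy hm (fun n => (hmy n).1) (φ := φ) h21 h22
  exact ⟨φ, hφ, X, Y, hX, hY, hXl, hYl⟩

/-- the distance of two solutions at the times `n`, `n + 1`, multiplicatively -/
noncomputable def rr (x y : ℕ → ℝ) (n : ℕ) : ℝ :=
  max (max (x n / y n) (y n / x n)) (max (x (n + 1) / y (n + 1)) (y (n + 1) / x (n + 1)))

lemma near_iff {x y : ℕ → ℝ} (hx : ∀ n, 0 < x n) (hy : ∀ n, 0 < y n) (R : ℝ) (n : ℕ) :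
    Near x y R n ↔ rr x y n ≤ R := by
  unfold Near rr
  simp only [max_le_iff, div_le_iff₀ (hx _), div_le_iff₀ (hy _)]

lemma rr_ge {x y : ℕ → ℝ} (hx : ∀ n, 0 < x n) (hy : ∀ n, 0 < y n) (n : ℕ) : 1 ≤ rr x y n := by
  rcases le_total (x n) (y n) with h | h
  · exact ((one_le_div (hx n)).2 h).trans ((le_max_right _ _).trans (le_max_left _ _))
  · exact ((one_le_div (hy n)).2 h).trans ((le_max_left _ _).trans (le_max_left _ _))

/-- one bounded solution makes all solutions bounded -/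
lemma all_bdd {b x y : ℕ → ℝ} (hb : ∀ n, 0 ≤ b n) (hx : Sol b x) (hy : Sol b y)
    (bx : BddAbove (Set.range x)) : BddAbove (Set.range y) := by
  have h0 := (near_iff hx.1 hy.1 _ 0).2 le_rfl
  have hR := rr_ge hx.1 hy.1 0
  obtain ⟨M, hM⟩ := bx
  refine ⟨rr x y 0 * M, ?_⟩
  rintro _ ⟨n, rfl⟩
  refine (h0.le hb hx hy (Nat.zero_le n)).1.2.trans ?_
  exact mul_le_mul_of_nonneg_left (hM ⟨n, rfl⟩) (by linarith)

/-- two bounded solutions are asymptotic unless the coefficient vanishes on a parity class -/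
theorem asym {k : ℕ} (hk : 1 ≤ k) {b x y : ℕ → ℝ} (hb : ∀ n, 0 ≤ b n)
    (hp : ∀ n, b (n + k) = b n) (hpar : ¬ ∃ i, ∀ j, b (i + 2 * j) = 0)
    (hx : Sol b x) (hy : Sol b y) {m M : ℝ} (hm : 0 < m) (hmx : ∀ n, m ≤ x n ∧ x n ≤ M)
    (hmy : ∀ n, m ≤ y n ∧ y n ≤ M) : Tendsto (fun n => x n - y n) atTop (𝓝 0) := by
  have hanti : Antitone (rr x y) := antitone_nat_of_succ_le fun n =>
    (near_iff hx.1 hy.1 _ _).1 (((near_iff hx.1 hy.1 _ n).2 le_rfl).succ hb hx hy)
  have hbdd : BddBelow (Set.range (rr x y)) := ⟨1, by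
    rintro _ ⟨n, rfl⟩; exact rr_ge hx.1 hy.1 n⟩
  have hlim := tendsto_atTop_ciInf hanti hbdd
  set R := ⨅ i, rr x y i with hRdef
  have hR1 : 1 ≤ R := le_ciInf fun n => rr_ge hx.1 hy.1 n
  have hR : R = 1 := by
    by_contra hne
    have hR2 : 1 < R := lt_of_le_of_ne hR1 (Ne.symm hne)
    obtain ⟨φ, hφ, X, Y, hX, hY, hXl, hYl⟩ := pair_limit hb hp hx hy hm hmx hmy
    have hXY : ∀ i, rr X Y i = R := by
      intro i
      have h1 : Tendsto (fun j => rr x y (φ j * k + i)) atTop (𝓝 (rr X Y i)) := by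
        unfold rr
        have a0 := hXl i
        have a1 := hXl (i + 1)
        have c0 := hYl i
        have c1 := hYl (i + 1)
        exact ((a0.div c0 (hY.1 i).ne').max (c0.div a0 (hX.1 i).ne')).max
          ((a1.div c1 (hY.1 (i + 1)).ne').max (c1.div a1 (hX.1 (i + 1)).ne'))
      have h2 : Tendsto (fun j => φ j * k + i) atTop atTop := by
        refine tendsto_atTop_mono (fun j => ?_) hφ.tendsto_atTop
        exact (Nat.le_mul_of_pos_right _ hk).trans (Nat.le_add_right _ _)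
      exact tendsto_nhds_unique h1 (hlim.comp h2)
    have hnear : ∀ i, Near X Y R i := fun i => (near_iff hX.1 hY.1 R i).2 (hXY i).le
    refine hpar (rigid hb hX hY hR2 (fun i => (hnear i).1) fun i => ?_)
    have h1 := hXY i
    unfold rr at h1
    have px := hX.1 i
    have py := hY.1 i
    have px1 := hX.1 (i + 1)
    have py1 := hY.1 (i + 1)
    have hmax : ∀ a c : ℝ, max a c = R → a = R ∨ c = R := by
      intro a c h
      rcases max_choice a c with h2 | h2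
      · exact Or.inl (h2 ▸ h)
      · exact Or.inr (h2 ▸ h)
    rcases hmax _ _ h1 with h2 | h2 <;> rcases hmax _ _ h2 with h3 | h3
    · exact Or.inl (Or.inl ((div_eq_iff py.ne').1 h3))
    · exact Or.inl (Or.inr ((div_eq_iff px.ne').1 h3))
    · exact Or.inr (Or.inl ((div_eq_iff py1.ne').1 h3))
    · exact Or.inr (Or.inr ((div_eq_iff px1.ne').1 h3))
  rw [hR] at hlim
  have h5 : Tendsto (fun n => (rr x y n - 1) * M) atTop (𝓝 ((1 - 1) * M)) :=
    (hlim.sub_const 1).mul_const M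
  rw [sub_self, zero_mul] at h5
  refine squeeze_zero_norm (fun n => ?_) h5
  rw [Real.norm_eq_abs, abs_le]
  have hN := (near_iff hx.1 hy.1 _ n).2 le_rfl
  have c0 : 0 ≤ rr x y n - 1 := by linarith [rr_ge hx.1 hy.1 n]
  have c1 := mul_le_mul_of_nonneg_left (hmx n).2 c0
  have c2 := mul_le_mul_of_nonneg_left (hmy n).2 c0
  have c3 := hN.1.1
  have c4 := hN.1.2
  constructor <;> nlinarith

/-- existence of a periodic solution -/
theorem exists_per {k : ℕ} (hk : 1 ≤ k) {b x : ℕ → ℝ} (hb : ∀ n, 0 ≤ b n)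
    (hp : ∀ n, b (n + k) = b n) (hpar : ¬ ∃ i, ∀ j, b (i + 2 * j) = 0)
    (hx : Sol b x) {m M : ℝ} (hm : 0 < m) (hmx : ∀ n, m ≤ x n ∧ x n ≤ M) :
    ∃ L : ℕ → ℝ, Sol b L ∧ ∀ n, L (n + k) = L n := by
  have hs : Sol b (fun n => x (n + k)) := by
    refine ⟨fun n => hx.1 _, fun n => ?_⟩
    have h := hx.2 (n + k)
    rw [hp] at h
    show x (n + 2 + k) = 1 / (b n * x (n + 1 + k) + x (n + k))
    rw [show n + 2 + k = n + k + 2 by ring, h, show n + 1 + k = n + k + 1 by ring]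
  have has := asym hk hb hp hpar hx hs hm hmx (fun n => hmx (n + k))
  obtain ⟨φ, hφ, X, Y, hX, hY, hXl, hYl⟩ :=
    pair_limit hb hp hx hs hm hmx (fun n => hmx (n + k))
  refine ⟨X, hX, fun n => ?_⟩
  have h2 : Tendsto (fun j => φ j * k + n) atTop atTop := by
    refine tendsto_atTop_mono (fun j => ?_) hφ.tendsto_atTop
    exact (Nat.le_mul_of_pos_right _ hk).trans (Nat.le_add_right _ _)
  have h3 := tendsto_nhds_unique ((hXl n).sub (hYl n)) (has.comp h2)
  have h4 : X (n + k) = Y n := by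
    refine tendsto_nhds_unique (hXl (n + k)) ((hYl n).congr fun j => ?_)
    show x (φ j * k + n + k) = x (φ j * k + (n + k))
    rw [add_assoc]
  rw [h4]
  linarith

end Pool.Agent.KS6_9.Rec
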